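import Pool.Agent.Helper91_PP.Statements

/-!
# Module C: level sets inside a region
-/

namespace Helper79_PP

open H91PP TriSphere

variable (S : TriSphere)

/-- two different corners of a triangle are the ends of a side -/
theorem corners_joined (t : S.T) (i k : Fin 3) (h : i ≠ k) :
    ∃ m, S.Joins (S.s t m) (S.c t i) (S.c t k) := by
  have key : ∀ i : Fin 3, S.Joins (S.s t i) (S.c t i) (S.c t (i + 1)) := by
    intro i
    rcases S.s_ends t i with h | h
    · exact Or.inl h
    · exact Or.inr h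
  have key' : ∀ i : Fin 3, S.Joins (S.s t i) (S.c t (i + 1)) (S.c t i) := fun i => (key i).symm
  have hik : k = i + 1 ∨ i = k + 1 := by
    revert h; revert i k; decide
  rcases hik with rfl | rfl
  · exact ⟨i, key i⟩
  · exact ⟨k, key' k⟩

/-- sides of a triangle in `R` are in `ER R` -/
theorem side_mem_ER {R : Set S.T} {t : S.T} (ht : t ∈ R) (i : Fin 3) : S.s t i ∈ S.ER R := by
  rcases S.s_lr t i with h | h
  · exact Or.inl (by rw [h]; exact ht)
  · exact Or.inr (by rw [h]; exact ht)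

/-- two different corners of a triangle of `R` are adjacent in `gr R` -/
theorem corners_adj {R : Set S.T} {t : S.T} (ht : t ∈ R) {i k : Fin 3} (h : S.c t i ≠ S.c t k) :
    (S.gr R).Adj (S.c t i) (S.c t k) := by
  obtain ⟨m, hm⟩ := corners_joined S t i k (fun e => h (by rw [e]))
  exact ⟨S.s t m, side_mem_ER S ht m, hm⟩

/-- the ends of an edge are corners of both its triangles -/
theorem ends_corners (e : S.E) :
    (∃ i, S.c (S.l e) i = S.a e) ∧ (∃ i, S.c (S.l e) i = S.b e) ∧
    (∃ i, S.c (S.r e) i = S.a e) ∧ (∃ i, S.c (S.r e) i = S.b e) := by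
  obtain ⟨i, hi⟩ := S.l_s e
  obtain ⟨k, hk⟩ := S.r_s e
  have h1 := S.s_ends (S.l e) i
  have h2 := S.s_ends (S.r e) k
  rw [hi] at h1
  rw [hk] at h2
  refine ⟨?_, ?_, ?_, ?_⟩
  · rcases h1 with h | h
    · exact ⟨_, h.1.symm⟩
    · exact ⟨_, h.1.symm⟩
  · rcases h1 with h | h
    · exact ⟨_, h.2.symm⟩
    · exact ⟨_, h.2.symm⟩
  · rcases h2 with h | h
    · exact ⟨_, h.1.symm⟩
    · exact ⟨_, h.1.symm⟩
  · rcases h2 with h | h
    · exact ⟨_, h.2.symm⟩
    · exact ⟨_, h.2.symm⟩

/-- a walk given by a list, as a walk of the graph, with support in the set of its vertices -/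
theorem isW_walk : ∀ (L : List (S.V × S.E)) (u w : S.V), S.IsW u L w →
    ∀ x ∈ L.map Prod.fst, ∃ p : (S.grE Set.univ).Walk u x, ∀ v ∈ p.support, v ∈ L.map Prod.fst := by
  intro L
  induction L with
  | nil => intro u w _ x hx; simp at hx
  | cons q L ih =>
    intro u w h x hx
    obtain ⟨rfl, v', hj, hw⟩ := h
    rw [List.map_cons, List.mem_cons] at hx
    rcases hx with rfl | hx
    · exact ⟨SimpleGraph.Walk.nil, by
        intro v hv
        rw [SimpleGraph.Walk.support_nil, List.mem_singleton] at hv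
        subst hv
        exact List.mem_map_of_mem List.mem_cons_self⟩
    · obtain ⟨p, hp⟩ := ih v' w hw x hx
      refine ⟨SimpleGraph.Walk.cons (show (S.grE Set.univ).Adj q.1 v' from ⟨q.2, trivial, hj⟩) p, ?_⟩
      intro v hv
      rw [SimpleGraph.Walk.support_cons, List.mem_cons] at hv
      rw [List.map_cons, List.mem_cons]
      rcases hv with rfl | hv
      · exact Or.inl rfl
      · exact Or.inr (hp v hv)

theorem gr_le (R : Set S.T) : S.gr R ≤ S.grE Set.univ := by
  intro x y h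
  obtain ⟨e, -, he⟩ := h
  exact ⟨e, trivial, he⟩

/-- vertices adjacent in `gr R` are in `VR R` -/
theorem adj_VR {R : Set S.T} {x y : S.V} (h : (S.gr R).Adj x y) : x ∈ S.VR R ∧ y ∈ S.VR R := by
  obtain ⟨e, he, hj⟩ := h
  obtain ⟨h1, h2, h3, h4⟩ := ends_corners S e
  have hab : S.a e ∈ S.VR R ∧ S.b e ∈ S.VR R := by
    rcases he with he | he
    · exact ⟨⟨_, he, h1⟩, ⟨_, he, h2⟩⟩
    · exact ⟨⟨_, he, h3⟩, ⟨_, he, h4⟩⟩
  rcases hj with ⟨rfl, rfl⟩ | ⟨rfl, rfl⟩
  · exact hab
  · exact ⟨hab.2, hab.1⟩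

/-- the end of a walk of `gr R` starting in `VR R` is in `VR R` -/
theorem walk_VR {R : Set S.T} : ∀ {x y : S.V} (_ : (S.gr R).Walk x y), x ∈ S.VR R → y ∈ S.VR R
  | _, _, .nil, h => h
  | _, _, .cons ha p, _ => walk_VR p (adj_VR S ha).2

/-- Module C. -/
theorem level : LevelThm := by
  intro S hSep hRF R L u hR δ hδ j hj x0 hx0 hjx0
  -- the set A
  set A : Set S.V := {y | ∃ q : (S.gr R).Walk x0 y, ∀ v ∈ q.support, j < δ v} with hA
  set B : Set S.V := {v | v ∈ L.map Prod.fst} with hB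
  set N : Set S.T := {t | ∃ i, S.c t i ∈ A} with hN
  have hA0 : x0 ∈ A := ⟨SimpleGraph.Walk.nil, by
    intro v hv
    rw [SimpleGraph.Walk.support_nil, List.mem_singleton] at hv
    rw [hv]; exact hjx0⟩
  have hAδ : ∀ y ∈ A, j < δ y := by
    rintro y ⟨q, hq⟩
    exact hq y q.end_mem_support
  have hBδ : ∀ y ∈ B, δ y = 0 := fun y hy => hδ.eq y hy
  have hAVR : ∀ y ∈ A, y ∈ S.VR R := by
    rintro y ⟨q, -⟩
    exact walk_VR S q hx0
  have hAB : ∀ y ∈ A, y ∉ B := by
    intro y hy hyB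
    have h1 := hAδ y hy
    rw [hBδ y hyB] at h1
    exact absurd h1 (Nat.not_lt_zero _)
  have huB : u ∈ B := by
    have hw := hR.walk
    have hne := hR.ne
    cases L with
    | nil => exact absurd rfl hne
    | cons q L =>
      obtain ⟨rfl, -⟩ := hw
      exact List.mem_map_of_mem List.mem_cons_self
  have hreach : ∀ x ∈ S.VR R, ∃ b ∈ B, (S.gr R).Reachable b x := fun x hx =>
    ⟨u, huB, hRF.conn R L u hR x hx⟩
  have htri : ∀ t i, S.c t i ∈ A → t ∈ R := by
    intro t i h
    exact hRF.intTri R L u hR (S.c t i) (hAVR _ h) (hAB _ h) t i rfl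
  have hAext : ∀ y ∈ A, ∀ z, (S.gr R).Adj y z → j < δ z → z ∈ A := by
    rintro y ⟨q, hq⟩ z hyz hz
    refine ⟨q.append (SimpleGraph.Walk.cons hyz SimpleGraph.Walk.nil), ?_⟩
    intro v hv
    rw [SimpleGraph.Walk.mem_support_append_iff] at hv
    rcases hv with hv | hv
    · exact hq v hv
    · rw [SimpleGraph.Walk.support_cons, SimpleGraph.Walk.support_nil, List.mem_cons,
        List.mem_singleton] at hv
      rcases hv with rfl | rfl
      · exact hq _ q.end_mem_support
      · exact hz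
  -- level of neighbours
  have hnb : ∀ y ∈ A, ∀ z, (S.gr R).Adj y z → z ∉ A → δ z = j := by
    intro y hy z hyz hz
    have h1 : ¬ j < δ z := fun h => hz (hAext y hy z hyz h)
    have h2 : δ y ≤ δ z + 1 := hδ.lip z y hyz.symm (hreach z (adj_VR S hyz).2)
    have h3 := hAδ y hy
    omega
  obtain ⟨Z, hZN, hZc, hZs⟩ := hSep N A B ⟨x0, hA0⟩ ⟨u, huB⟩
    (by
      rintro x ⟨q1, hq1⟩ y ⟨q2, hq2⟩
      have hsub : ∀ {w : S.V} (q : (S.gr R).Walk x0 w), (∀ v ∈ q.support, j < δ v) →
          ∀ v ∈ q.support, v ∈ A := by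
        intro w q hq v hv
        classical
        exact ⟨q.takeUntil v hv, fun z hz => hq z (q.support_takeUntil_subset_support hv hz)⟩
      refine ⟨(q1.reverse.append q2).mapLe (gr_le S R), ?_⟩
      intro v hv
      rw [SimpleGraph.Walk.support_mapLe_eq_support, SimpleGraph.Walk.mem_support_append_iff,
        SimpleGraph.Walk.support_reverse, List.mem_reverse] at hv
      rcases hv with hv | hv
      · exact hsub q1 hq1 v hv
      · exact hsub q2 hq2 v hv)
    (by
      intro x hx y hy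
      obtain ⟨p1, hp1⟩ := isW_walk S L u u hR.walk x hx
      obtain ⟨p2, hp2⟩ := isW_walk S L u u hR.walk y hy
      refine ⟨p1.reverse.append p2, ?_⟩
      intro v hv
      rw [SimpleGraph.Walk.mem_support_append_iff,
        SimpleGraph.Walk.support_reverse, List.mem_reverse] at hv
      rcases hv with hv | hv
      · exact hp1 v hv
      · exact hp2 v hv)
    (fun t i h => ⟨i, h⟩)
    (by
      rintro t i hi ⟨k, hk⟩
      have ht := htri t k hk
      have hne : S.c t i ≠ S.c t k := fun e => hAB _ hk (e ▸ hi)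
      have hadj := corners_adj S ht hne
      have h1 : δ (S.c t k) ≤ δ (S.c t i) + 1 :=
        hδ.lip _ _ hadj ⟨S.c t i, hi, SimpleGraph.Reachable.refl _⟩
      have h2 := hAδ _ hk
      rw [hBδ _ hi] at h1
      omega)
  refine ⟨Z, ?_, hZc, ?_⟩
  · intro e he
    have hbd : ¬ (S.l e ∈ N ↔ S.r e ∈ N) := hZN he
    obtain ⟨⟨i1, h1⟩, ⟨i2, h2⟩, ⟨i3, h3⟩, ⟨i4, h4⟩⟩ := ends_corners S e
    by_cases hl : S.l e ∈ N
    · have hr : S.r e ∉ N := fun h => hbd ⟨fun _ => h, fun _ => hl⟩
      have ha : S.a e ∉ A := fun h => hr ⟨i3, by rw [h3]; exact h⟩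
      have hb : S.b e ∉ A := fun h => hr ⟨i4, by rw [h4]; exact h⟩
      obtain ⟨k, hk⟩ := hl
      have ht := htri _ _ hk
      refine ⟨Or.inl ht, ?_, ?_⟩
      · rw [← h1]
        refine hnb _ hk _ (corners_adj S ht ?_) (by rw [h1]; exact ha)
        rw [h1]; exact fun e' => ha (e' ▸ hk)
      · rw [← h2]
        refine hnb _ hk _ (corners_adj S ht ?_) (by rw [h2]; exact hb)
        rw [h2]; exact fun e' => hb (e' ▸ hk)
    · have hr : S.r e ∈ N := by
        by_contra hr
        exact hbd ⟨fun h => absurd h hl, fun h => absurd h hr⟩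
      have ha : S.a e ∉ A := fun h => hl ⟨i1, by rw [h1]; exact h⟩
      have hb : S.b e ∉ A := fun h => hl ⟨i2, by rw [h2]; exact h⟩
      obtain ⟨k, hk⟩ := hr
      have ht := htri _ _ hk
      refine ⟨Or.inr ht, ?_, ?_⟩
      · rw [← h3]
        refine hnb _ hk _ (corners_adj S ht ?_) (by rw [h3]; exact ha)
        rw [h3]; exact fun e' => ha (e' ▸ hk)
      · rw [← h4]
        refine hnb _ hk _ (corners_adj S ht ?_) (by rw [h4]; exact hb)
        rw [h4]; exact fun e' => hb (e' ▸ hk)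
  · intro y hy b hb p
    exact hZs y hy b hb p

end Helper79_PP
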